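import Mathlib
import Pool.Agent.SEMD.Assemble

/-!
Two trees with alpha-labellings, a sufficiently long path attached to an arbitrary vertex of one of
them: the resulting forest with two components is super edge-magic.
-/

set_option autoImplicit false

namespace Pool.Agent.Results.MP_6afe48_co.LongTail

open SEMD

/-- An alpha-labelling of a tree `T` with threshold `k`: the labels are different numbers from
`0` to `|V| - 1`, every edge joins a label at most `k` to a label larger than `k`, and the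
differences of labels along different edges are different. -/
def IsAlpha {V : Type} [Fintype V] (T : SimpleGraph V) (f : V → ℕ) (k : ℕ) : Prop :=
  Function.Injective f ∧ (∀ v, f v < Fintype.card V) ∧ k < Fintype.card V ∧
    (∀ u v, T.Adj u v → (f u ≤ k ↔ k < f v)) ∧
    ∀ u v u' v', T.Adj u v → T.Adj u' v' → f u < f v → f u' < f v' →
      f v - f u = f v' - f u' → u = u' ∧ v = v'

variable {V2 V3 : Type} [Fintype V2] [Fintype V3]

/-- The conclusion: the forest is super edge-magic. -/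
def Concl (T2 : SimpleGraph V2) (T3 : SimpleGraph V3) (t : V3) (m : ℕ) : Prop :=
  ∃ f : (V2 ⊕ V3) ⊕ Fin (m + 1) → ℕ, Function.Injective f ∧
    (∀ v, 1 ≤ f v ∧ f v ≤ Fintype.card ((V2 ⊕ V3) ⊕ Fin (m + 1))) ∧
    ∃ g : (tailG T2 T3 t m).edgeSet → ℕ, Function.Injective g ∧
      (∀ e, Fintype.card ((V2 ⊕ V3) ⊕ Fin (m + 1)) + 1 ≤ g e ∧
        g e ≤ Fintype.card ((V2 ⊕ V3) ⊕ Fin (m + 1)) + Nat.card (tailG T2 T3 t m).edgeSet) ∧
      ∃ k : ℕ, ∀ (e : (tailG T2 T3 t m).edgeSet) (u v : (V2 ⊕ V3) ⊕ Fin (m + 1)),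
        e.val = s(u, v) → f u + f v + g e = k

/-- One class of `T2` is at least as large as the class of `t` in `T3`. -/
lemma core1 {T2 : SimpleGraph V2} {T3 : SimpleGraph V3} {c2 : V2 → Bool} {l2 : V2 → ℕ}
    {a2 b2 : ℕ} {c3 : V3 → Bool} {l3 : V3 → ℕ} {a3 b3 : ℕ} (h2 : T2.IsTree) (h3 : T3.IsTree)
    (B2 : Blk T2 c2 l2 a2 b2) (B3 : Blk T3 c3 l3 a3 b3) (t : V3) (ht : c3 t = true)
    (m : ℕ) (hm : 16 * (a2 + b2 + (a3 + b3)) ≤ m) (h : a3 ≤ b2) : Concl T2 T3 t m := by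
  have t1 := B3.pos t
  have t2 := B3.le1 t ht
  obtain ⟨N, hN⟩ : ∃ N, N = l3 t + b2 - a3 := ⟨_, rfl⟩
  obtain ⟨s, hs⟩ : ∃ s, s = N + 1 - l3 t := ⟨_, rfl⟩
  obtain ⟨nL, hnL⟩ : ∃ nL, nL = m - 2 * N := ⟨_, rfl⟩
  obtain ⟨XL, hXL⟩ : ∃ XL, XL = (nL + 1) / 2 := ⟨_, rfl⟩
  obtain ⟨YL, hYL⟩ : ∃ YL, YL = nL / 2 := ⟨_, rfl⟩
  obtain ⟨x, hx⟩ : ∃ x, x = XL - (N + b2 + b3) := ⟨_, rfl⟩
  obtain ⟨LP, PP⟩ := PL.exists (2 * N) s (by omega) (by omega) (Or.inr (Or.inl (by omega)))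
  obtain ⟨LL, PLL⟩ := PL.exists nL x (by omega) (by omega) (Or.inr (Or.inr (by omega)))
  have hlast := PP.last
  exact assemble h2 h3 B2 B3 t ht m (2 * N) nL s x LP LL PP PLL XL YL N N
    (XL + N + a3) (YL + N + b3) (XL + N) (YL + N) (YL + N + b2 + b3 + 1) (XL + LP (2 * N - 1))
    (by omega) (by omega) (by omega) (by omega) (by omega)
    (Or.inl ⟨by omega, hXL, hYL, rfl, rfl⟩) (Or.inl ⟨rfl, rfl, rfl, rfl⟩)
    (Or.inl ⟨by omega, Or.inl ⟨by omega, rfl, rfl⟩⟩) (by omega)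

/-- The generic case when both classes of `T2` are smaller. -/
lemma core2 {T2 : SimpleGraph V2} {T3 : SimpleGraph V3} {c2 : V2 → Bool} {l2 : V2 → ℕ}
    {a2 b2 : ℕ} {c3 : V3 → Bool} {l3 : V3 → ℕ} {a3 b3 : ℕ} (h2 : T2.IsTree) (h3 : T3.IsTree)
    (B2 : Blk T2 c2 l2 a2 b2) (B3 : Blk T3 c3 l3 a3 b3) (t : V3) (ht : c3 t = true)
    (m : ℕ) (hm : 16 * (a2 + b2 + (a3 + b3)) ≤ m) (h : b2 < a3)
    (hne : a3 + 1 ≠ a2 + b2 + l3 t) : Concl T2 T3 t m := by
  have t1 := B3.pos t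
  have t2 := B3.le1 t ht
  obtain ⟨N, hN⟩ : ∃ N, N = a2 + a3 + l3 t - b2 - 1 := ⟨_, rfl⟩
  obtain ⟨s, hs⟩ : ∃ s, s = a3 - b2 + 1 := ⟨_, rfl⟩
  obtain ⟨nL, hnL⟩ : ∃ nL, nL = m - (2 * N + 1) := ⟨_, rfl⟩
  obtain ⟨XL, hXL⟩ : ∃ XL, XL = nL / 2 := ⟨_, rfl⟩
  obtain ⟨YL, hYL⟩ : ∃ YL, YL = (nL + 1) / 2 := ⟨_, rfl⟩
  obtain ⟨x, hx⟩ : ∃ x, x = YL - (N + a2 + a3) := ⟨_, rfl⟩
  obtain ⟨LP, PP⟩ := PL.exists (2 * N + 1) s (by omega) (by omega) (Or.inr (Or.inr (by omega)))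
  obtain ⟨LL, PLL⟩ := PL.exists nL x (by omega) (by omega) (Or.inr (Or.inr (by omega)))
  have hlast := PP.last
  exact assemble h2 h3 B2 B3 t ht m (2 * N + 1) nL s x LP LL PP PLL XL YL N (N + 1)
    (XL + N) (YL + (N + 1)) (XL + N + a2) (YL + (N + 1) + b2) (XL + N + a2 + a3 + 1)
    (YL + LP (2 * N + 1 - 1))
    (by omega) (by omega) (by omega) (by omega) (by omega)
    (Or.inr ⟨by omega, hXL, hYL, rfl, rfl⟩) (Or.inr ⟨rfl, rfl, rfl, rfl⟩)
    (Or.inl ⟨by omega, Or.inr ⟨by omega, rfl, rfl⟩⟩) (by omega)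

/-- The remaining case. -/
lemma core3 {T2 : SimpleGraph V2} {T3 : SimpleGraph V3} {c2 : V2 → Bool} {l2 : V2 → ℕ}
    {a2 b2 : ℕ} {c3 : V3 → Bool} {l3 : V3 → ℕ} {a3 b3 : ℕ} (h2 : T2.IsTree) (h3 : T3.IsTree)
    (B2 : Blk T2 c2 l2 a2 b2) (B3 : Blk T3 c3 l3 a3 b3) (t : V3) (ht : c3 t = true)
    (m : ℕ) (hm : 16 * (a2 + b2 + (a3 + b3)) ≤ m) (h : b2 + 1 ≤ l3 t) : Concl T2 T3 t m := by
  have t1 := B3.pos t
  have t2 := B3.le1 t ht
  obtain ⟨N, hN⟩ : ∃ N, N = l3 t + b3 := ⟨_, rfl⟩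
  obtain ⟨s, hs⟩ : ∃ s, s = b3 + b2 + 1 := ⟨_, rfl⟩
  obtain ⟨nL, hnL⟩ : ∃ nL, nL = m - 2 * N := ⟨_, rfl⟩
  obtain ⟨XL, hXL⟩ : ∃ XL, XL = (nL + 1) / 2 := ⟨_, rfl⟩
  obtain ⟨YL, hYL⟩ : ∃ YL, YL = nL / 2 := ⟨_, rfl⟩
  obtain ⟨x, hx⟩ : ∃ x, x = XL - (N + b2 + b3) := ⟨_, rfl⟩
  obtain ⟨LP, PP⟩ := PL.exists (2 * N) s (by omega) (by omega) (Or.inr (Or.inl (by omega)))
  obtain ⟨LL, PLL⟩ := PL.exists nL x (by omega) (by omega) (Or.inr (Or.inr (by omega)))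
  have hlast := PP.last
  exact assemble h2 h3 B2 B3 t ht m (2 * N) nL s x LP LL PP PLL XL YL N N
    (XL + N) (YL + N) (XL + N + a2) (YL + N + b2) (YL + N + b2 + b3 + 1) (XL + LP (2 * N - 1))
    (by omega) (by omega) (by omega) (by omega) (by omega)
    (Or.inl ⟨by omega, hXL, hYL, rfl, rfl⟩) (Or.inr ⟨rfl, rfl, rfl, rfl⟩)
    (Or.inr ⟨by omega, by omega, rfl, rfl⟩) (by omega)

/-- All cases, `t` of colour `true`. -/
lemma core {T2 : SimpleGraph V2} {T3 : SimpleGraph V3} {c2 : V2 → Bool} {l2 : V2 → ℕ}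
    {a2 b2 : ℕ} {c3 : V3 → Bool} {l3 : V3 → ℕ} {a3 b3 : ℕ} (h2 : T2.IsTree) (h3 : T3.IsTree)
    (B2 : Blk T2 c2 l2 a2 b2) (B3 : Blk T3 c3 l3 a3 b3) (t : V3) (ht : c3 t = true)
    (m : ℕ) (hm : 16 * (a2 + b2 + (a3 + b3)) ≤ m) : Concl T2 T3 t m := by
  by_cases q1 : a3 ≤ b2
  · exact core1 h2 h3 B2 B3 t ht m hm q1
  by_cases q2 : a3 ≤ a2
  · exact core1 h2 h3 B2.swap B3 t ht m (by omega) q2
  by_cases q3 : a3 + 1 = a2 + b2 + l3 t
  · have hl : (if c3 t = true then a3 + 1 - l3 t else b3 + 1 - l3 t) = a3 + 1 - l3 t := by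
      rw [if_pos ht]
    have t2 := B3.le1 t ht
    have t1 := B3.pos t
    have hc : 1 ≤ a2 + b2 := by
      rw [B2.card]
      have := h2.connected.nonempty
      exact Fintype.card_pos
    by_cases q4 : 1 ≤ a2
    · exact core3 h2 h3 B2 B3.mirror t ht m hm (by rw [hl]; omega)
    · exact core3 h2 h3 B2.swap B3.mirror t ht m (by omega) (by rw [hl]; omega)
  · exact core2 h2 h3 B2 B3 t ht m hm (by omega) q3

/-- An alpha-labelling gives a labelled block. -/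
lemma blk_of_alpha {V : Type} [Fintype V] {T : SimpleGraph V} {f : V → ℕ} {k : ℕ}
    (hf : Function.Injective f) (hfr : ∀ v, f v < Fintype.card V) (hk : k < Fintype.card V)
    (halpha : ∀ u v, T.Adj u v → (f u ≤ k ↔ k < f v))
    (hdiff : ∀ u v u' v', T.Adj u v → T.Adj u' v' → f u < f v → f u' < f v' →
        f v - f u = f v' - f u' → u = u' ∧ v = v') :
    Blk T (fun v => decide (f v ≤ k)) (fun v => if f v ≤ k then k + 1 - f v else f v - k)
      (k + 1) (Fintype.card V - (k + 1)) := by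
  have hedge : ∀ u v, T.Adj u v → (f u ≤ k ∧ k < f v) ∨ (f v ≤ k ∧ k < f u) := by
    intro u v h
    have h1 := halpha u v h
    by_cases h2 : f u ≤ k
    · exact Or.inl ⟨h2, h1.mp h2⟩
    · right
      have h3 := halpha v u h.symm
      exact ⟨h3.mpr (by omega), by omega⟩
  refine ⟨by omega, ?_, ?_, ?_, ?_, ?_, ?_⟩
  · intro v; split_ifs <;> omega
  · intro v hv
    have hv' : f v ≤ k := by simpa using hv
    simp only [hv', if_true]; omega
  · intro v hv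
    have := hfr v
    have hv' : ¬ (f v ≤ k) := by simpa using hv
    simp only [hv', if_false]; omega
  · intro u v huv h
    apply hf
    by_cases h1 : f u ≤ k
    · have h2 : f v ≤ k := by simpa [h1] using huv
      simp only [h1, h2, if_true] at h
      omega
    · have h2 : ¬ (f v ≤ k) := by simpa [h1] using huv
      simp only [h1, h2, if_false] at h
      omega
  · intro u v huv
    rcases hedge u v huv with h1 | h1
    · have h2 : ¬ (f v ≤ k) := by omega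
      simp [h2, h1.1]
    · have h2 : ¬ (f u ≤ k) := by omega
      simp [h2, h1.1]
  · intro u v u' v' huv huv' hu hu' h
    have hu1 : f u ≤ k := by simpa using hu
    have hu1' : f u' ≤ k := by simpa using hu'
    have e1 : k < f v := by rcases hedge u v huv with h1 | h1 <;> omega
    have e2 : k < f v' := by rcases hedge u' v' huv' with h1 | h1 <;> omega
    have e3 : ¬ (f v ≤ k) := by omega
    have e4 : ¬ (f v' ≤ k) := by omega
    simp only [hu1, hu1', e3, e4, if_true, if_false] at h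
    exact hdiff u v u' v' huv huv' (by omega) (by omega) (by omega)

/-- Let `T2` and `T3` be trees with alpha-labellings and let `t` be any vertex of `T3`. For every
`m` with `16 * (|T2| + |T3|) ≤ m` the forest consisting of `T2` and of `T3` with a path on `m + 1`
vertices attached to `t` is super edge-magic: its vertices have different labels from `1` to `p`,
its `q` edges have different labels from `p + 1` to `p + q`, and the sum of the labels of an edge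
and of its ends is constant. -/
theorem result :
    ∀ (V2 V3 : Type) [Fintype V2] [Fintype V3] (T2 : SimpleGraph V2) (T3 : SimpleGraph V3)
      (f2 : V2 → ℕ) (f3 : V3 → ℕ) (k2 k3 : ℕ) (t : V3) (m : ℕ),
      T2.IsTree → T3.IsTree → IsAlpha T2 f2 k2 → IsAlpha T3 f3 k3 →
      16 * (Fintype.card V2 + Fintype.card V3) ≤ m →
      ∃ f : (V2 ⊕ V3) ⊕ Fin (m + 1) → ℕ, Function.Injective f ∧
        (∀ v, 1 ≤ f v ∧ f v ≤ Fintype.card ((V2 ⊕ V3) ⊕ Fin (m + 1))) ∧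
        ∃ g : (((T2 ⊕g T3) ⊕g SimpleGraph.pathGraph (m + 1)) ⊔
            SimpleGraph.edge (Sum.inl (Sum.inr t)) (Sum.inr 0)).edgeSet → ℕ,
          Function.Injective g ∧
          (∀ e, Fintype.card ((V2 ⊕ V3) ⊕ Fin (m + 1)) + 1 ≤ g e ∧
            g e ≤ Fintype.card ((V2 ⊕ V3) ⊕ Fin (m + 1)) +
              Nat.card (((T2 ⊕g T3) ⊕g SimpleGraph.pathGraph (m + 1)) ⊔
                SimpleGraph.edge (Sum.inl (Sum.inr t)) (Sum.inr 0)).edgeSet) ∧
          ∃ k : ℕ, ∀ (e : (((T2 ⊕g T3) ⊕g SimpleGraph.pathGraph (m + 1)) ⊔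
              SimpleGraph.edge (Sum.inl (Sum.inr t)) (Sum.inr 0)).edgeSet)
            (u v : (V2 ⊕ V3) ⊕ Fin (m + 1)), e.val = s(u, v) → f u + f v + g e = k := by
  intro V2 V3 _ _ T2 T3 f2 f3 k2 k3 t m h2 h3 ⟨p1, p2, p3, p4, p5⟩ ⟨q1, q2, q3, q4, q5⟩ hm
  have B2 := blk_of_alpha p1 p2 p3 p4 p5
  have B3 := blk_of_alpha q1 q2 q3 q4 q5
  have c2 := B2.card
  have c3 := B3.card
  by_cases ht : f3 t ≤ k3
  · exact core h2 h3 B2 B3 t (by simpa using ht) m (by omega)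
  · exact core h2 h3 B2 B3.swap t (by simpa using ht) m (by omega)

end Pool.Agent.Results.MP_6afe48_co.LongTail
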